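import Pool.Agent.Helper63.RP4.T4

/-!
# Project GH (MP_973bc8_pr, half plane with typical boundary values): conditioning on a half plane

`D` is a finite domain invariant under the reflection `x₁ ↦ -x₁`.  `cnd D F h` is the average of `F` over the
height functions on `D` which agree with `h` in the closed left half plane.  Reflection identity:
`E_D [cnd F * cnd G] = E_D [F * G ∘ θ]` for functions `F`, `G` of the heights in the closed right half plane.
-/

open Finset

namespace GH

open RP4 (V Om avg mem_Om bdry mem_bdry IsHom Adj)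

/-- the reflection in the line `x₁ = 0` -/
def th (v : V) : V := (-v.1, v.2)

lemma th_th (v : V) : th (th v) = v := by
  unfold th
  simp

/-- `D` is symmetric -/
def SymD (D : Finset V) : Prop := ∀ v, v ∈ D ↔ th v ∈ D

/-- `F` depends only on the heights in the closed right half plane -/
def RMeas (F : (V → ℤ) → ℝ) : Prop := ∀ g g' : V → ℤ, (∀ v, 0 ≤ v.1 → g v = g' v) → F g = F g'

/-- `F` depends only on the heights in the closed left half plane -/
def LMeas (F : (V → ℤ) → ℝ) : Prop := ∀ g g' : V → ℤ, (∀ v, v.1 ≤ 0 → g v = g' v) → F g = F g'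

open Classical in
/-- the height functions which agree with `h` in the closed left half plane -/
noncomputable def cls (D : Finset V) (h : V → ℤ) : Finset (V → ℤ) :=
  (Om D).filter (fun g => ∀ v, v.1 ≤ 0 → g v = h v)

/-- the conditional expectation given the heights in the closed left half plane -/
noncomputable def cnd (D : Finset V) (F : (V → ℤ) → ℝ) (h : V → ℤ) : ℝ := avg (cls D h) F

lemma mem_cls {D : Finset V} {h g : V → ℤ} : g ∈ cls D h ↔ g ∈ Om D ∧ ∀ v, v.1 ≤ 0 → g v = h v := by
  classical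
  unfold cls
  rw [Finset.mem_filter]

lemma self_mem_cls {D : Finset V} {h : V → ℤ} (hh : h ∈ Om D) : h ∈ cls D h :=
  mem_cls.2 ⟨hh, fun _ _ => rfl⟩

lemma cls_eq {D : Finset V} {h g : V → ℤ} (hg : ∀ v, v.1 ≤ 0 → g v = h v) : cls D g = cls D h := by
  ext k
  rw [mem_cls, mem_cls]
  constructor
  · rintro ⟨h1, h2⟩
    exact ⟨h1, fun v hv => (h2 v hv).trans (hg v hv)⟩
  · rintro ⟨h1, h2⟩
    exact ⟨h1, fun v hv => (h2 v hv).trans (hg v hv).symm⟩

lemma cnd_lmeas (D : Finset V) (F : (V → ℤ) → ℝ) : LMeas (cnd D F) := by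
  intro g g' h
  unfold cnd
  rw [cls_eq h]

lemma card_cls_pos {D : Finset V} {h : V → ℤ} (hh : h ∈ Om D) : (0 : ℝ) < (cls D h).card := by
  exact_mod_cast Finset.card_pos.2 ⟨h, self_mem_cls hh⟩

/-- functions of the left half plane can be taken out -/
lemma cnd_mul (D : Finset V) {A : (V → ℤ) → ℝ} (hA : LMeas A) (F : (V → ℤ) → ℝ) (h : V → ℤ) :
    cnd D (fun g => A g * F g) h = A h * cnd D F h := by
  unfold cnd avg
  rw [← mul_div_assoc, Finset.mul_sum]
  congr 1
  refine Finset.sum_congr rfl fun g hg => ?_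
  show A g * F g = A h * F g
  rw [hA g h (mem_cls.1 hg).2]

lemma cnd_add (D : Finset V) (F G : (V → ℤ) → ℝ) (h : V → ℤ) :
    cnd D (fun g => F g + G g) h = cnd D F h + cnd D G h := by
  unfold cnd avg
  rw [Finset.sum_add_distrib, add_div]

lemma cnd_smul (D : Finset V) (c : ℝ) (F : (V → ℤ) → ℝ) (h : V → ℤ) :
    cnd D (fun g => c * F g) h = c * cnd D F h := by
  unfold cnd avg
  rw [← Finset.mul_sum, mul_div_assoc]

lemma cnd_sub (D : Finset V) (F G : (V → ℤ) → ℝ) (h : V → ℤ) :
    cnd D (fun g => F g - G g) h = cnd D F h - cnd D G h := by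
  unfold cnd avg
  rw [Finset.sum_sub_distrib, sub_div]

/-- the tower property -/
theorem avg_cnd (D : Finset V) (F : (V → ℤ) → ℝ) : avg (Om D) (cnd D F) = avg (Om D) F := by
  classical
  unfold avg
  congr 1
  have h1 : ∀ h ∈ Om D, cnd D F h = ∑ g ∈ Om D,
      if (∀ v, v.1 ≤ 0 → g v = h v) then F g / (cls D g).card else 0 := by
    intro h _
    unfold cnd avg
    rw [← Finset.sum_filter, Finset.sum_div]
    refine Finset.sum_congr rfl fun g hg => ?_
    rw [cls_eq (mem_cls.1 hg).2]
  rw [Finset.sum_congr rfl h1, Finset.sum_comm]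
  refine Finset.sum_congr rfl fun g hg => ?_
  rw [← Finset.sum_filter, Finset.sum_const, nsmul_eq_mul]
  have h2 : (Om D).filter (fun h => ∀ v, v.1 ≤ 0 → g v = h v) = cls D g := by
    ext k
    rw [mem_cls, Finset.mem_filter]
    constructor
    · rintro ⟨a, b⟩
      exact ⟨a, fun v hv => (b v hv).symm⟩
    · rintro ⟨a, b⟩
      exact ⟨a, fun v hv => (b v hv).symm⟩
  rw [h2]
  have h3 := card_cls_pos hg
  field_simp

theorem avg_mul_cnd (D : Finset V) {A : (V → ℤ) → ℝ} (hA : LMeas A) (F : (V → ℤ) → ℝ) :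
    avg (Om D) (fun h => A h * cnd D F h) = avg (Om D) (fun h => A h * F h) := by
  rw [← avg_cnd D (fun h => A h * F h)]
  unfold avg
  congr 1
  exact Finset.sum_congr rfl fun h _ => (cnd_mul D hA F h).symm

open Classical in
/-- the function equal to `u` in the closed right half plane and to `v` off it -/
noncomputable def glue (u v : V → ℤ) : V → ℤ := fun w => if 0 ≤ w.1 then u w else v w

lemma glue_right {u v : V → ℤ} {w : V} (hw : 0 ≤ w.1) : glue u v w = u w := by
  unfold glue
  rw [if_pos hw]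

lemma glue_left {u v : V → ℤ} (huv : ∀ w : V, w.1 = 0 → u w = v w) {w : V} (hw : w.1 ≤ 0) :
    glue u v w = v w := by
  unfold glue
  split_ifs with h
  · exact huv w (le_antisymm hw h)
  · rfl

lemma glue_mem {D : Finset V} {u v : V → ℤ} (hu : u ∈ Om D) (hv : v ∈ Om D)
    (huv : ∀ w : V, w.1 = 0 → u w = v w) : glue u v ∈ Om D := by
  rw [mem_Om] at hu hv ⊢
  obtain ⟨u1, u2⟩ := hu
  obtain ⟨v1, v2⟩ := hv
  have hc : ∀ w, glue u v w = u w ∨ glue u v w = v w := by
    intro w
    unfold glue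
    split_ifs
    · exact Or.inl rfl
    · exact Or.inr rfl
  refine ⟨⟨fun w hw => ?_, fun w hw => ?_, fun a ha b hb hab => ?_⟩, fun w hw => ?_⟩
  · rcases hc w with h | h <;> rw [h]
    · exact u1.off w hw
    · exact v1.off w hw
  · rcases hc w with h | h <;> rw [h]
    · exact u1.par w hw
    · exact v1.par w hw
  · have h' : |a.1 - b.1| + |a.2 - b.2| = 1 := hab
    have h3 := abs_nonneg (a.2 - b.2)
    have h4 := le_abs_self (a.1 - b.1)
    have h5 := neg_abs_le (a.1 - b.1)
    have h6 : (0 ≤ a.1 ∧ 0 ≤ b.1) ∨ (a.1 ≤ 0 ∧ b.1 ≤ 0) := by omega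
    rcases h6 with ⟨h1, h2⟩ | ⟨h1, h2⟩
    · rw [glue_right h1, glue_right h2]
      exact u1.step a ha b hb hab
    · rw [glue_left huv h1, glue_left huv h2]
      exact v1.step a ha b hb hab
  · rcases hc w with h | h <;> rw [h]
    · exact u2 w hw
    · exact v2 w hw

/-- Markov property: for a function of the right half plane the conditional expectation depends only on
the heights on the line -/
theorem cnd_line {D : Finset V} {F : (V → ℤ) → ℝ} (hF : RMeas F) {h k : V → ℤ} (hh : h ∈ Om D)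
    (hk : k ∈ Om D) (hhk : ∀ v : V, v.1 = 0 → h v = k v) : cnd D F h = cnd D F k := by
  have key : ∀ h k : V → ℤ, h ∈ Om D → k ∈ Om D → (∀ v : V, v.1 = 0 → h v = k v) →
      ∀ g ∈ cls D h, glue g k ∈ cls D k := by
    intro h k _ hk hhk g hg
    obtain ⟨h1, h2⟩ := mem_cls.1 hg
    have h3 : ∀ w : V, w.1 = 0 → g w = k w := fun w hw => (h2 w hw.le).trans (hhk w hw)
    exact mem_cls.2 ⟨glue_mem h1 hk h3, fun v hv => glue_left h3 hv⟩
  have inv : ∀ h k : V → ℤ, h ∈ Om D → k ∈ Om D → (∀ v : V, v.1 = 0 → h v = k v) →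
      ∀ g ∈ cls D h, glue (glue g k) h = g := by
    intro h k _ _ hhk g hg
    obtain ⟨h1, h2⟩ := mem_cls.1 hg
    funext w
    by_cases hw : 0 ≤ w.1
    · rw [glue_right hw, glue_right hw]
    · unfold glue
      rw [if_neg hw]
      exact (h2 w (by omega)).symm
  have hkh : ∀ v : V, v.1 = 0 → k v = h v := fun v hv => (hhk v hv).symm
  have hsum : ∑ g ∈ cls D h, F g = ∑ g ∈ cls D k, F g := by
    refine Finset.sum_nbij' (fun g => glue g k) (fun g => glue g h) (key h k hh hk hhk)
      (key k h hk hh hkh) (inv h k hh hk hhk) (inv k h hk hh hkh) ?_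
    intro g _
    exact hF _ _ fun v hv => (glue_right hv).symm
  have hcard : (cls D h).card = (cls D k).card := by
    refine Finset.card_nbij' (fun g => glue g k) (fun g => glue g h) (key h k hh hk hhk)
      (key k h hk hh hkh) (inv h k hh hk hhk) (inv k h hk hh hkh)
  unfold cnd avg
  rw [hsum, hcard]

lemma th_par (v : V) : Even (RP4.par (th v) - RP4.par v) := by
  refine ⟨-v.1, ?_⟩
  show (-v.1 + v.2) - (v.1 + v.2) = _
  ring

lemma th_adj (u v : V) : Adj (th u) (th v) ↔ Adj u v := by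
  unfold Adj
  show |(-u.1) - (-v.1)| + |u.2 - v.2| = 1 ↔ |u.1 - v.1| + |u.2 - v.2| = 1
  rw [show (-u.1) - (-v.1) = -(u.1 - v.1) by ring, abs_neg]

lemma comp_mem {D : Finset V} (hD : SymD D) {h : V → ℤ} (hh : h ∈ Om D) :
    (fun v => h (th v)) ∈ Om D := by
  rw [mem_Om] at hh ⊢
  obtain ⟨h1, h2⟩ := hh
  refine ⟨⟨fun v hv => h1.off _ fun h => hv ((hD v).2 h), fun v hv => ?_,
    fun u hu v hv huv => ?_⟩, fun v hv => h2 _ ?_⟩
  · have h3 := h1.par _ ((hD v).1 hv)
    have h4 := th_par v
    rw [Int.even_iff] at h3 h4 ⊢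
    omega
  · exact h1.step _ ((hD u).1 hu) _ ((hD v).1 hv) ((th_adj u v).2 huv)
  · rw [mem_bdry] at hv ⊢
    obtain ⟨h1, u, h2, h3⟩ := hv
    exact ⟨(hD v).1 h1, th u, (th_adj u v).2 h2, fun h => h3 ((hD u).2 h)⟩

lemma avg_comp {D : Finset V} (hD : SymD D) (F : (V → ℤ) → ℝ) :
    avg (Om D) (fun h => F (fun v => h (th v))) = avg (Om D) F := by
  unfold avg
  congr 1
  have inv : ∀ h : V → ℤ, (fun v => (fun w => h (th w)) (th v)) = h := by
    intro h
    funext v
    simp only [th_th]
  exact Finset.sum_nbij' (fun h v => h (th v)) (fun h v => h (th v)) (fun h hh => comp_mem hD hh)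
    (fun h hh => comp_mem hD hh) (fun h _ => inv h) (fun h _ => inv h) (fun h _ => rfl)

lemma avg_congr {S : Finset (V → ℤ)} {F G : (V → ℤ) → ℝ} (h : ∀ g ∈ S, F g = G g) :
    avg S F = avg S G := by
  unfold avg
  rw [Finset.sum_congr rfl h]

/-- reflection identity -/
theorem cnd_refl {D : Finset V} (hD : SymD D) {F G : (V → ℤ) → ℝ} (hF : RMeas F) (hG : RMeas G) :
    avg (Om D) (fun h => cnd D F h * cnd D G h) = avg (Om D) (fun h => F h * G (fun v => h (th v))) := by
  have h1 : avg (Om D) (fun h => cnd D F h * cnd D G h) = avg (Om D) (fun h => cnd D F h * G h) :=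
    avg_mul_cnd D (cnd_lmeas D F) G
  have h2 : avg (Om D) (fun h => cnd D F h * G h) =
      avg (Om D) (fun h => cnd D F (fun v => h (th v)) * G (fun v => h (th v))) :=
    (avg_comp hD (fun h => cnd D F h * G h)).symm
  have h3 : avg (Om D) (fun h => cnd D F (fun v => h (th v)) * G (fun v => h (th v))) =
      avg (Om D) (fun h => G (fun v => h (th v)) * cnd D F h) := by
    refine avg_congr fun h hh => ?_
    have h4 : cnd D F (fun v => h (th v)) = cnd D F h := by
      refine cnd_line hF (comp_mem hD hh) hh fun v hv => ?_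
      show h (th v) = h v
      congr 1
      unfold th
      rw [hv, neg_zero, ← hv]
    rw [h4, mul_comm]
  have hA : LMeas (fun h : V → ℤ => G (fun v => h (th v))) := by
    intro g g' hg
    refine hG _ _ fun v hv => hg _ ?_
    show -v.1 ≤ 0
    omega
  rw [h1, h2, h3, avg_mul_cnd D hA F]
  exact avg_congr fun h _ => mul_comm _ _

end GH
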