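import Pool.Agent.Helper12.GH.Odd

/-!
# Project GH: odd neutral functions are approximated by `lap (u - u ∘ θ)` with `u` supported in the open
right half plane
-/

open MeasureTheory

namespace GH

open GF (Pl Cc Ne dx dy lap energy2)

/-- one dimensional cutoff: one on `[-1, 1]`, zero off `[-2, 2]` -/
private noncomputable def ks (t : ℝ) : ℝ := 1 - Real.smoothTransition (t - 1) - Real.smoothTransition (-t - 1)

private lemma ks_smooth : ContDiff ℝ (⊤ : ℕ∞) ks := by
  unfold ks
  exact (contDiff_const.sub (Real.smoothTransition.contDiff.comp (contDiff_id.sub contDiff_const))).sub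
    (Real.smoothTransition.contDiff.comp (contDiff_id.neg.sub contDiff_const))

private lemma ks_zero {t : ℝ} (h : 2 ≤ |t|) : ks t = 0 := by
  unfold ks
  rcases le_abs.1 h with h | h
  · rw [Real.smoothTransition.one_of_one_le (by linarith),
      Real.smoothTransition.zero_of_nonpos (by linarith)]
    ring
  · rw [Real.smoothTransition.zero_of_nonpos (by linarith : t - 1 ≤ 0),
      Real.smoothTransition.one_of_one_le (by linarith)]
    ring

private lemma ks_abs (t : ℝ) : |ks t| ≤ 1 := by
  unfold ks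
  rcases le_total 0 t with h | h
  · rw [Real.smoothTransition.zero_of_nonpos (by linarith : -t - 1 ≤ 0)]
    have h1 := Real.smoothTransition.nonneg (t - 1)
    have h2 := Real.smoothTransition.le_one (t - 1)
    rw [abs_le]
    constructor <;> linarith
  · rw [Real.smoothTransition.zero_of_nonpos (by linarith : t - 1 ≤ 0)]
    have h1 := Real.smoothTransition.nonneg (-t - 1)
    have h2 := Real.smoothTransition.le_one (-t - 1)
    rw [abs_le]
    constructor <;> linarith

private lemma ks_supp : HasCompactSupport ks := by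
  refine HasCompactSupport.intro (isCompact_Icc (a := (-2 : ℝ)) (b := 2)) fun t ht => ks_zero ?_
  by_contra h
  push Not at h
  exact ht ⟨(abs_lt.1 h).1.le, (abs_lt.1 h).2.le⟩

private lemma ks_deriv : ∃ M : ℝ, 0 ≤ M ∧ ∀ t, |deriv ks t| ≤ M := by
  have h1 : Continuous (deriv ks) := ks_smooth.continuous_deriv (by simp)
  obtain ⟨M, hM⟩ := h1.bounded_above_of_compact_support ks_supp.deriv
  exact ⟨M, (norm_nonneg _).trans (hM 0), hM⟩

private lemma kf_smooth (η : ℝ) : ContDiff ℝ (⊤ : ℕ∞) (fun z : Pl => ks (z.1 / η)) :=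
  ks_smooth.comp (contDiff_fst.div_const η)

private lemma kf_dx (η : ℝ) (z : Pl) : dx (fun z : Pl => ks (z.1 / η)) z = deriv ks (z.1 / η) * (1 / η) := by
  rw [GF.dx_eq_deriv (kf_smooth η)]
  have h0 : HasDerivAt ks (deriv ks (z.1 / η)) (z.1 / η) :=
    ((ks_smooth.differentiable (by simp)) (z.1 / η)).hasDerivAt
  have h2 : HasDerivAt (fun t : ℝ => t / η) (1 / η) z.1 := (hasDerivAt_id z.1).div_const η
  have h1 : HasDerivAt (fun t : ℝ => ks (t / η)) (deriv ks (z.1 / η) * (1 / η)) z.1 :=
    HasDerivAt.comp (h := fun t : ℝ => t / η) z.1 h0 h2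
  exact h1.deriv

private lemma kf_dy (η : ℝ) (z : Pl) : dy (fun z : Pl => ks (z.1 / η)) z = 0 := by
  rw [GF.dy_eq_deriv (kf_smooth η)]
  simp

/-- the energy of the part near the line -/
private lemma near_line {g : Pl → ℝ} (hg : Cc g) {C : ℝ} (hC : 0 ≤ C) (hg1 : ∀ z, |g z| ≤ C * |z.1|) {ε : ℝ}
    (hε : 0 < ε) : ∃ η : ℝ, 0 < η ∧
      energy2 (lap (fun z => ks (z.1 / η) * g z)) (lap (fun z => ks (z.1 / η) * g z)) ≤ ε := by
  obtain ⟨M, hM0, hM⟩ := ks_deriv
  obtain ⟨R, hR, hRs⟩ := hg.box
  obtain ⟨A, hA0, hA⟩ := hg.dx.bdd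
  obtain ⟨B, hB0, hB⟩ := hg.dy.bdd
  set Q : ℝ := (A + 2 * M * C) ^ 2 + B ^ 2 + 1 with hQ
  have hQ0 : 0 < Q := by positivity
  refine ⟨ε / (Q * (12 * R)), by positivity, ?_⟩
  set η : ℝ := ε / (Q * (12 * R)) with hη
  have hη0 : 0 < η := by positivity
  set v : Pl → ℝ := fun z => ks (z.1 / η) * g z with hv
  have hvc : Cc v := hg.mul_left (kf_smooth η)
  have hsupp : tsupport v ⊆ {z : Pl | |z.1| ≤ 2 * η} ∩ {z | |z.1| < R ∧ |z.2| < R} := by
    refine Set.subset_inter ?_ ?_
    · refine closure_minimal ?_ (isClosed_le continuous_fst.abs continuous_const)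
      intro z hz
      by_contra h
      have h1 : ¬ |z.1| ≤ 2 * η := h
      push Not at h1
      refine hz ?_
      have h2 : 2 ≤ |z.1 / η| := by
        rw [abs_div, abs_of_pos hη0, le_div_iff₀ hη0]
        exact h1.le
      show ks (z.1 / η) * g z = 0
      rw [ks_zero h2, zero_mul]
    · refine (closure_mono ?_).trans hRs
      intro z hz h
      refine hz ?_
      show ks (z.1 / η) * g z = 0
      have h' : g z = 0 := h
      rw [h', mul_zero]
  have hdx : ∀ z, |dx v z| ≤ A + 2 * M * C := by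
    intro z
    by_cases h : dx v z = 0
    · rw [h, abs_zero]
      positivity
    · have hz : z ∈ tsupport v := GF.tsupport_dx v (subset_tsupport _ h)
      have h1 : |z.1| ≤ 2 * η := (hsupp hz).1
      have h2 : dx v z = ks (z.1 / η) * dx g z + g z * (deriv ks (z.1 / η) * (1 / η)) := by
        rw [hv, GF.dx_mul (kf_smooth η) hg.smooth, kf_dx]
      rw [h2]
      have h3 : |ks (z.1 / η) * dx g z| ≤ A := by
        rw [abs_mul]
        calc |ks (z.1 / η)| * |dx g z| ≤ 1 * A :=
              mul_le_mul (ks_abs _) (hA z) (abs_nonneg _) zero_le_one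
          _ = A := one_mul A
      have h4 : |g z * (deriv ks (z.1 / η) * (1 / η))| ≤ 2 * M * C := by
        rw [abs_mul, abs_mul, abs_of_pos (by positivity : (0 : ℝ) < 1 / η)]
        calc |g z| * (|deriv ks (z.1 / η)| * (1 / η)) ≤ (C * (2 * η)) * (M * (1 / η)) := by
              refine mul_le_mul ((hg1 z).trans (mul_le_mul_of_nonneg_left h1 hC)) ?_ (by positivity)
                (by positivity)
              exact mul_le_mul_of_nonneg_right (hM _) (by positivity)
          _ = 2 * M * C := by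
              field_simp
      calc |ks (z.1 / η) * dx g z + g z * (deriv ks (z.1 / η) * (1 / η))| ≤
            |ks (z.1 / η) * dx g z| + |g z * (deriv ks (z.1 / η) * (1 / η))| := abs_add_le _ _
        _ ≤ A + 2 * M * C := add_le_add h3 h4
  have hdy : ∀ z, |dy v z| ≤ B := by
    intro z
    have h2 : dy v z = ks (z.1 / η) * dy g z := by
      rw [hv, GF.dy_mul (kf_smooth η) hg.smooth, kf_dy]
      ring
    rw [h2, abs_mul]
    calc |ks (z.1 / η)| * |dy g z| ≤ 1 * B :=
          mul_le_mul (ks_abs _) (hB z) (abs_nonneg _) zero_le_one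
      _ = B := one_mul B
  rw [GF.energy2_lap_lap hvc hvc]
  have hq : ∀ z, |dx v z * dx v z + dy v z * dy v z| ≤ Q := by
    intro z
    have e1 : dx v z * dx v z ≤ (A + 2 * M * C) ^ 2 := by
      rw [← pow_two, ← sq_abs]
      exact pow_le_pow_left₀ (abs_nonneg _) (hdx z) 2
    have e2 : dy v z * dy v z ≤ B ^ 2 := by
      rw [← pow_two, ← sq_abs]
      exact pow_le_pow_left₀ (abs_nonneg _) (hdy z) 2
    rw [abs_of_nonneg (add_nonneg (mul_self_nonneg _) (mul_self_nonneg _)), hQ]
    linarith
  have hI := GF.int_abs_le_of_supp (f := fun z => dx v z * dx v z + dy v z * dy v z)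
    ({z : Pl | |GF.ell ((1, 0) : Pl) z - 0| < 3 * η} ∩ {z : Pl | |z.1| ≤ R ∧ |z.2| ≤ R}) Q
    (4 * R * (3 * η)) hQ0.le (by positivity) hq ?_ (GF.vol_strip dir10 0 (3 * η) R (by positivity) hR.le)
  · calc ∫ z, (dx v z * dx v z + dy v z * dy v z) ≤ ∫ z, |dx v z * dx v z + dy v z * dy v z| := by
          refine integral_mono_of_nonneg (Filter.Eventually.of_forall fun z =>
            add_nonneg (mul_self_nonneg _) (mul_self_nonneg _)) ?_
            (Filter.Eventually.of_forall fun z => le_abs_self _)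
          exact (((hvc.dx.continuous.mul hvc.dx.continuous).add
            (hvc.dy.continuous.mul hvc.dy.continuous)).integrable_of_hasCompactSupport
            (hvc.dx.supp.mul_left.add hvc.dy.supp.mul_left)).abs
      _ ≤ Q * (4 * R * (3 * η)) := hI
      _ = ε := by
          rw [hη]
          field_simp
          ring
  · intro z hz
    have hz' : z ∈ tsupport v := by
      by_contra h
      refine hz ?_
      have h1 : dx v z = 0 := by
        by_contra h2
        exact h (GF.tsupport_dx v (subset_tsupport _ h2))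
      have h3 : dy v z = 0 := by
        by_contra h2
        exact h (GF.tsupport_dy v (subset_tsupport _ h2))
      rw [h1, h3]
      ring
    have h1 := hsupp hz'
    refine ⟨?_, h1.2.1.le, h1.2.2.le⟩
    show |(1 : ℝ) * z.1 + 0 * z.2 - 0| < 3 * η
    have h2 : (1 : ℝ) * z.1 + 0 * z.2 - 0 = z.1 := by ring
    rw [h2]
    have h3 : |z.1| ≤ 2 * η := h1.1
    linarith

/-- odd approximation -/
theorem dens_odd {f : Pl → ℝ} (hf : Cc f) {ε : ℝ} (hε : 0 < ε) : ∃ u : Pl → ℝ, Cc u ∧
    tsupport u ⊆ {z | 0 < z.1} ∧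
    energy2 (fun z => (f z - rt f z) - lap (fun w => u w - rt u w) z)
      (fun z => (f z - rt f z) - lap (fun w => u w - rt u w) z) < ε := by
  have hF : Ne (fun z => f z - rt f z) := ne_sub_rt hf
  obtain ⟨g, hg, hgε⟩ := GF.energy2_density hF (ε := ε / 4) (by positivity)
  set A : Pl → ℝ := fun z => (f z - rt f z) - lap g z with hA
  have hAn : Ne A := hF.sub hg.ne_lap
  -- the odd part
  set o : Pl → ℝ := fun z => (1 / 2) * (g z - rt g z) with ho
  have hoc : Cc o := (hg.sub (cc_rt hg)).smul (1 / 2)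
  have hodd : ∀ z, o (tr z) = -o z := by
    intro z
    simp only [ho, rt, tr_tr]
    ring
  have hlapo : ∀ z, lap o z = (1 / 2) * (lap g z - rt (lap g) z) := by
    intro z
    rw [ho, GF.lap_smul (1 / 2) (hg.sub (cc_rt hg)).smooth, GF.lap_sub hg.smooth (cc_rt hg).smooth,
      lap_rt hg]
  have hO : energy2 (fun z => (f z - rt f z) - lap o z) (fun z => (f z - rt f z) - lap o z) < ε / 4 := by
    have e1 : (fun z => (f z - rt f z) - lap o z) = fun z => (1 / 2) * A z + (-(1 / 2)) * rt A z := by
      funext z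
      rw [hlapo]
      simp only [hA, rt, tr_tr]
      ring
    have hr := ne_rt hAn
    have e2 := GF.sqrt_energy2_add (hAn.smul (1 / 2)) (hr.smul (-(1 / 2)))
    rw [GF.energy2_smul_left, GF.energy2_smul_right, GF.energy2_smul_left, GF.energy2_smul_right,
      energy2_rt] at e2
    have e3 : (1 / 2 : ℝ) * (1 / 2 * energy2 A A) = (1 / 2) ^ 2 * energy2 A A := by ring
    have e4 : -(1 / 2 : ℝ) * (-(1 / 2) * energy2 A A) = (1 / 2) ^ 2 * energy2 A A := by ring
    have hnn := GF.energy2_nonneg hAn
    rw [e3, e4, Real.sqrt_mul (by positivity), Real.sqrt_sq (by norm_num)] at e2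
    rw [e1]
    have e5 : √(energy2 (fun z => 1 / 2 * A z + -(1 / 2) * rt A z)
        (fun z => 1 / 2 * A z + -(1 / 2) * rt A z)) ≤ √(energy2 A A) := by linarith
    have hn2 := GF.energy2_nonneg ((hAn.smul (1 / 2)).add (hr.smul (-(1 / 2))))
    exact lt_of_le_of_lt ((Real.sqrt_le_sqrt_iff hnn).1 e5) hgε
  obtain ⟨C, hC0, hC⟩ := hg.lip
  have ho1 : ∀ z, |o z| ≤ C * |z.1| := by
    intro z
    have h1 := hC z (tr z)
    have h2 : z.1 - (tr z).1 = 2 * z.1 := by
      show z.1 - -z.1 = 2 * z.1
      ring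
    have h3 : z.2 - (tr z).2 = 0 := by
      show z.2 - z.2 = 0
      ring
    rw [h2, h3, abs_zero, add_zero, abs_mul, abs_two] at h1
    have h4 : |o z| = (1 / 2) * |g z - g (tr z)| := by
      simp only [ho, rt]
      rw [abs_mul, abs_of_pos (by norm_num : (0 : ℝ) < 1 / 2)]
    rw [h4]
    linarith
  obtain ⟨η, hη, hv⟩ := near_line hoc hC0 ho1 (ε := ε / 4) (by positivity)
  set v : Pl → ℝ := fun z => ks (z.1 / η) * o z with hvd
  have hvc : Cc v := hoc.mul_left (kf_smooth η)
  have hst : ContDiff ℝ (⊤ : ℕ∞) (fun z : Pl => Real.smoothTransition (z.1 / η - 1)) :=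
    Real.smoothTransition.contDiff.comp ((contDiff_fst.div_const η).sub contDiff_const)
  set u : Pl → ℝ := fun z => Real.smoothTransition (z.1 / η - 1) * o z with hu
  have huc : Cc u := hoc.mul_left hst
  have husupp : tsupport u ⊆ {z : Pl | 0 < z.1} := by
    have h1 : tsupport u ⊆ {z : Pl | η ≤ z.1} := by
      refine closure_minimal ?_ (isClosed_le continuous_const continuous_fst)
      intro z hz
      by_contra h
      have h' : ¬ η ≤ z.1 := h
      push Not at h'
      refine hz ?_
      show Real.smoothTransition (z.1 / η - 1) * o z = 0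
      rw [Real.smoothTransition.zero_of_nonpos, zero_mul]
      rw [sub_nonpos, div_le_one hη]
      exact h'.le
    exact h1.trans fun z hz => lt_of_lt_of_le hη hz
  have huv : (fun w => u w - rt u w) = fun w => o w - v w := by
    funext w
    have e1 : rt u w = Real.smoothTransition (-(w.1 / η) - 1) * (-o w) := by
      show Real.smoothTransition ((tr w).1 / η - 1) * o (tr w) = _
      rw [hodd]
      show Real.smoothTransition (-w.1 / η - 1) * -o w = _
      rw [neg_div]
    rw [e1]
    simp only [hu, hvd, ks]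
    ring
  refine ⟨u, huc, husupp, ?_⟩
  rw [huv]
  have hN1 : Ne (fun z => (f z - rt f z) - lap o z) := hF.sub hoc.ne_lap
  have e6 : (fun z => (f z - rt f z) - lap (fun w => o w - v w) z) =
      fun z => ((f z - rt f z) - lap o z) + lap v z := by
    funext z
    rw [GF.lap_sub hoc.smooth hvc.smooth]
    ring
  rw [e6]
  have h7 := GF.sqrt_energy2_add hN1 hvc.ne_lap
  have hn3 := GF.energy2_nonneg (hN1.add hvc.ne_lap)
  have h8 : √(energy2 (fun z => (f z - rt f z) - lap o z) (fun z => (f z - rt f z) - lap o z)) < √(ε / 4) :=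
    Real.sqrt_lt_sqrt (GF.energy2_nonneg hN1) hO
  have h9 : √(energy2 (lap v) (lap v)) ≤ √(ε / 4) := Real.sqrt_le_sqrt hv
  have h10 : √(ε / 4) + √(ε / 4) = √ε := by
    have : √ε = √(4 * (ε / 4)) := by congr 1; ring
    rw [this, Real.sqrt_mul (by norm_num), show (4 : ℝ) = 2 ^ 2 by norm_num, Real.sqrt_sq (by norm_num)]
    ring
  exact (Real.sqrt_lt_sqrt_iff hn3).1 (lt_of_le_of_lt h7 (by linarith))

end GH
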