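import Pool.Agent.Helper12.GH.Odd
import Pool.Agent.Helper97.EN.KerA

/-!
# Project GH: the Dirichlet Green function of the right half plane
-/

open MeasureTheory

namespace GH

open GF (Pl Cc Ne energy2)

/-- Green function of `-Δ` on the right half plane with zero boundary values -/
noncomputable def gH (x y : Pl) : ℝ :=
  1 / (2 * Real.pi) * (Real.log (Real.sqrt ((x.1 + y.1) ^ 2 + (x.2 - y.2) ^ 2)) -
    Real.log (Real.sqrt ((x.1 - y.1) ^ 2 + (x.2 - y.2) ^ 2)))

/-- the Green form -/
noncomputable def greenHalf (f g : Pl → ℝ) : ℝ := ∫ x : Pl, ∫ y : Pl, f x * gH x y * g y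

theorem green_odd {f : Pl → ℝ} (hf : Cc f) :
    energy2 (fun z => f z - rt f z) (fun z => f z - rt f z) = 2 * greenHalf f f := by
  have hr : Cc (rt f) := cc_rt hf
  have hn : Cc (fun z => (-1) * rt f z) := hr.smul (-1)
  have e1 : (fun z => f z - rt f z) = fun z => f z + (-1) * rt f z := by
    funext z
    ring
  have e2 : energy2 (fun z => f z - rt f z) (fun z => f z - rt f z) =
      2 * (energy2 f f - energy2 f (rt f)) := by
    rw [e1, GF.energy2_add_left hf hn (hf.add hn), GF.energy2_add_right hf hn hf,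
      GF.energy2_add_right hf hn hn, GF.energy2_smul_left, GF.energy2_smul_left,
      GF.energy2_smul_right, GF.energy2_smul_right, energy2_rt, GF.energy2_symm hr hf]
    ring
  rw [e2]
  congr 1
  have hc := hf.smooth.continuous
  have hrc := hr.smooth.continuous
  have i1 := EN.ker_int hc hf.supp hc hf.supp
  have i2 := EN.ker_int hc hf.supp hrc hr.supp
  have j1 : Integrable (fun x : Pl => ∫ y : Pl, f x * f y * EN.Phi (x - y)) := by
    rw [Measure.volume_eq_prod] at i1
    exact i1.integral_prod_left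
  have j2 : Integrable (fun x : Pl => ∫ y : Pl, f x * rt f y * EN.Phi (x - y)) := by
    rw [Measure.volume_eq_prod] at i2
    exact i2.integral_prod_left
  have k1 : energy2 f f = ∫ x : Pl, ∫ y : Pl, f x * f y * EN.Phi (x - y) := rfl
  have k2 : energy2 f (rt f) = ∫ x : Pl, ∫ y : Pl, f x * rt f y * EN.Phi (x - y) := rfl
  rw [k1, k2, ← integral_sub j1 j2]
  unfold greenHalf
  refine integral_congr_ae (Filter.Eventually.of_forall fun x => ?_)
  show (∫ y : Pl, f x * f y * EN.Phi (x - y)) - (∫ y : Pl, f x * rt f y * EN.Phi (x - y)) =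
    ∫ y : Pl, f x * gH x y * f y
  have l2 : (∫ y : Pl, f x * rt f y * EN.Phi (x - y)) = ∫ y : Pl, f x * f y * EN.Phi (x - tr y) := by
    rw [← int_tr (fun y => f x * f y * EN.Phi (x - tr y))]
    simp only [tr_tr]
    rfl
  have m1 : Integrable (fun y : Pl => f x * f y * EN.Phi (x - y)) := by
    have := (EN.ker_int1 hc hf.supp x).const_mul (f x)
    refine this.congr (Filter.Eventually.of_forall fun y => ?_)
    show f x * (f y * EN.Phi (x - y)) = _
    ring
  have m2 : Integrable (fun y : Pl => f x * f y * EN.Phi (x - tr y)) := by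
    have h1 := (EN.ker_int1 hrc hr.supp x).const_mul (f x)
    have h2 := (tr_mp.integrable_comp_emb tr_emb).2 h1
    refine h2.congr (Filter.Eventually.of_forall fun y => ?_)
    show f x * (f (tr (tr y)) * EN.Phi (x - tr y)) = _
    rw [tr_tr]
    ring
  rw [l2, ← integral_sub m1 m2]
  refine integral_congr_ae (Filter.Eventually.of_forall fun y => ?_)
  show f x * f y * EN.Phi (x - y) - f x * f y * EN.Phi (x - tr y) = f x * gH x y * f y
  have p1 : EN.Phi (x - tr y) = -(1 / (2 * Real.pi)) *
      Real.log (Real.sqrt ((x.1 + y.1) ^ 2 + (x.2 - y.2) ^ 2)) := by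
    unfold EN.Phi tr
    simp only [Prod.fst_sub, Prod.snd_sub, sub_neg_eq_add]
  have p2 : EN.Phi (x - y) = -(1 / (2 * Real.pi)) *
      Real.log (Real.sqrt ((x.1 - y.1) ^ 2 + (x.2 - y.2) ^ 2)) := rfl
  rw [p1, p2]
  unfold gH
  ring

end GH
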