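import Pool.Agent.Helper12.GH.Cond

/-!
# Project GH: identities and estimates in a finite symmetric domain
-/

open Finset

namespace GH

open RP4 (V Om avg)

lemma avg_add (S : Finset (V → ℤ)) (F G : (V → ℤ) → ℝ) :
    avg S (fun h => F h + G h) = avg S F + avg S G := by
  unfold avg
  rw [Finset.sum_add_distrib, add_div]

lemma avg_smul (S : Finset (V → ℤ)) (c : ℝ) (F : (V → ℤ) → ℝ) : avg S (fun h => c * F h) = c * avg S F := by
  unfold avg
  rw [← Finset.mul_sum, mul_div_assoc]

lemma avg_const {S : Finset (V → ℤ)} (hS : S.Nonempty) (c : ℝ) : avg S (fun _ => c) = c := by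
  unfold avg
  rw [Finset.sum_const, nsmul_eq_mul]
  have h : (S.card : ℝ) ≠ 0 := by
    exact_mod_cast (Finset.card_pos.2 hS).ne'
  field_simp

lemma avg_mono {S : Finset (V → ℤ)} {F G : (V → ℤ) → ℝ} (h : ∀ g ∈ S, F g ≤ G g) : avg S F ≤ avg S G := by
  unfold avg
  exact div_le_div_of_nonneg_right (Finset.sum_le_sum h) (Nat.cast_nonneg _)

lemma avg_abs (S : Finset (V → ℤ)) (F : (V → ℤ) → ℝ) : |avg S F| ≤ avg S (fun h => |F h|) := by
  unfold avg
  rw [abs_div, abs_of_nonneg (Nat.cast_nonneg S.card : (0 : ℝ) ≤ S.card)]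
  exact div_le_div_of_nonneg_right (Finset.abs_sum_le_sum_abs _ _) (Nat.cast_nonneg _)

lemma avg_abs_le_sqrt (S : Finset (V → ℤ)) (A : (V → ℤ) → ℝ) :
    avg S (fun h => |A h|) ≤ √(avg S (fun h => A h ^ 2)) := by
  refine Real.le_sqrt_of_sq_le ?_
  unfold avg
  rcases Finset.eq_empty_or_nonempty S with rfl | hS
  · simp
  · have h0 : (0 : ℝ) < S.card := by exact_mod_cast Finset.card_pos.2 hS
    have h1 := sq_sum_le_card_mul_sum_sq (s := S) (f := fun h => |A h|)
    simp only [sq_abs] at h1
    rw [div_pow, div_le_div_iff₀ (by positivity) h0]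
    nlinarith

/-- decomposition of the square of a function of the right half plane -/
theorem avg_resid {D : Finset V} (hD : SymD D) {G : (V → ℤ) → ℝ} (hG : RMeas G) :
    avg (Om D) (fun h => (G h - cnd D G h) ^ 2) =
      1 / 2 * avg (Om D) (fun h => (G h - G (fun v => h (th v))) ^ 2) := by
  have h1 : avg (Om D) (fun h => cnd D G h * cnd D G h) = avg (Om D) (fun h => cnd D G h * G h) :=
    avg_mul_cnd D (cnd_lmeas D G) G
  have h2 := cnd_refl hD hG hG
  have h3 : avg (Om D) (fun h => G (fun v => h (th v)) ^ 2) = avg (Om D) (fun h => G h ^ 2) :=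
    avg_comp hD (fun h => G h ^ 2)
  have e1 : avg (Om D) (fun h => (G h - cnd D G h) ^ 2) =
      avg (Om D) (fun h => G h ^ 2) + (-2) * avg (Om D) (fun h => cnd D G h * G h) +
        avg (Om D) (fun h => cnd D G h * cnd D G h) := by
    rw [← avg_smul, ← avg_add, ← avg_add]
    exact avg_congr fun h _ => by ring
  have e2 : avg (Om D) (fun h => (G h - G (fun v => h (th v))) ^ 2) =
      avg (Om D) (fun h => G h ^ 2) + (-2) * avg (Om D) (fun h => G h * G (fun v => h (th v))) +
        avg (Om D) (fun h => G (fun v => h (th v)) ^ 2) := by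
    rw [← avg_smul, ← avg_add, ← avg_add]
    exact avg_congr fun h _ => by ring
  rw [e1, e2, h3, ← h1, h2]
  ring

/-- the conditional characteristic function of `X - E[X | left]` at distance from the constant `q` -/
theorem key_id {D : Finset V} (hD : SymD D) (hne : (Om D).Nonempty) {X : (V → ℤ) → ℝ} (hX : RMeas X) (q : ℝ) :
    avg (Om D) (fun h => (cnd D (fun g => Real.cos (X g - cnd D X h)) h - q) ^ 2 +
        (cnd D (fun g => Real.sin (X g - cnd D X h)) h) ^ 2) =
      avg (Om D) (fun h => Real.cos (X h - X (fun v => h (th v)))) -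
        2 * q * avg (Om D) (fun h => Real.cos (X h - cnd D X h)) + q ^ 2 := by
  set m : (V → ℤ) → ℝ := cnd D X with hm
  have hc : RMeas (fun h => Real.cos (X h)) := fun g g' h => by
    show Real.cos (X g) = Real.cos (X g')
    rw [hX g g' h]
  have hs : RMeas (fun h => Real.sin (X h)) := fun g g' h => by
    show Real.sin (X g) = Real.sin (X g')
    rw [hX g g' h]
  have e1 : ∀ h, cnd D (fun g => Real.cos (X g - m h)) h =
      Real.cos (m h) * cnd D (fun g => Real.cos (X g)) h + Real.sin (m h) * cnd D (fun g => Real.sin (X g)) h := by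
    intro h
    rw [← cnd_smul, ← cnd_smul, ← cnd_add]
    unfold cnd avg
    congr 1
    refine Finset.sum_congr rfl fun g _ => ?_
    show Real.cos (X g - m h) = Real.cos (m h) * Real.cos (X g) + Real.sin (m h) * Real.sin (X g)
    rw [Real.cos_sub]
    ring
  have e2 : ∀ h, cnd D (fun g => Real.sin (X g - m h)) h =
      Real.cos (m h) * cnd D (fun g => Real.sin (X g)) h - Real.sin (m h) * cnd D (fun g => Real.cos (X g)) h := by
    intro h
    rw [← cnd_smul, ← cnd_smul, ← cnd_sub]
    unfold cnd avg
    congr 1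
    refine Finset.sum_congr rfl fun g _ => ?_
    show Real.sin (X g - m h) = Real.cos (m h) * Real.sin (X g) - Real.sin (m h) * Real.cos (X g)
    rw [Real.sin_sub]
    ring
  have e3 : avg (Om D) (fun h => cnd D (fun g => Real.cos (X g - m h)) h) =
      avg (Om D) (fun h => Real.cos (X h - m h)) := by
    rw [← avg_cnd D (fun h => Real.cos (X h - m h))]
    refine avg_congr fun h _ => ?_
    unfold cnd
    refine avg_congr fun g hg => ?_
    rw [hm, cnd_lmeas D X g h (mem_cls.1 hg).2]
  have e4 : avg (Om D) (fun h => Real.cos (X h - X (fun v => h (th v)))) =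
      avg (Om D) (fun h => cnd D (fun g => Real.cos (X g)) h * cnd D (fun g => Real.cos (X g)) h) +
        avg (Om D) (fun h => cnd D (fun g => Real.sin (X g)) h * cnd D (fun g => Real.sin (X g)) h) := by
    rw [cnd_refl hD hc hc, cnd_refl hD hs hs, ← avg_add]
    exact avg_congr fun h _ => Real.cos_sub _ _
  have e5 : avg (Om D) (fun h => (cnd D (fun g => Real.cos (X g - m h)) h - q) ^ 2 +
        (cnd D (fun g => Real.sin (X g - m h)) h) ^ 2) =
      avg (Om D) (fun h => cnd D (fun g => Real.cos (X g)) h * cnd D (fun g => Real.cos (X g)) h) +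
        avg (Om D) (fun h => cnd D (fun g => Real.sin (X g)) h * cnd D (fun g => Real.sin (X g)) h) +
        (-2 * q) * avg (Om D) (fun h => cnd D (fun g => Real.cos (X g - m h)) h) + avg (Om D) (fun _ => q ^ 2) := by
    rw [← avg_smul, ← avg_add, ← avg_add, ← avg_add]
    refine avg_congr fun h _ => ?_
    rw [e1, e2]
    have h1 := Real.sin_sq_add_cos_sq (m h)
    set a := cnd D (fun g => Real.cos (X g)) h
    set b := cnd D (fun g => Real.sin (X g)) h
    have h2 : (Real.cos (m h) * a + Real.sin (m h) * b) ^ 2 + (Real.cos (m h) * b - Real.sin (m h) * a) ^ 2 =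
        a * a + b * b := by
      have : (Real.cos (m h) * a + Real.sin (m h) * b) ^ 2 + (Real.cos (m h) * b - Real.sin (m h) * a) ^ 2 =
        (Real.sin (m h) ^ 2 + Real.cos (m h) ^ 2) * (a * a + b * b) := by ring
      rw [this, h1, one_mul]
    linear_combination h2
  rw [e5, e3, e4, avg_const hne]
  ring

/-- comparison of `X - E[X | left]` with a function `Y` of the right half plane -/
theorem key_diff {D : Finset V} (hD : SymD D) {X Y : (V → ℤ) → ℝ} (hX : RMeas X) (hY : RMeas Y) :
    |avg (Om D) (fun h => Real.cos (X h - cnd D X h)) - avg (Om D) (fun h => Real.cos (Y h))| ≤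
      √(1 / 2 * avg (Om D) (fun h => ((X h - Y h) - (X (fun v => h (th v)) - Y (fun v => h (th v)))) ^ 2)) +
        √(avg (Om D) (fun h => Y h * Y (fun v => h (th v)))) := by
  have hXY : RMeas (fun h => X h - Y h) := fun g g' h => by
    show X g - Y g = X g' - Y g'
    rw [hX g g' h, hY g g' h]
  have h1 := avg_resid hD hXY
  have h2 := cnd_refl hD hY hY
  have e1 : avg (Om D) (fun h => Real.cos (X h - cnd D X h)) - avg (Om D) (fun h => Real.cos (Y h)) =
      avg (Om D) (fun h => Real.cos (X h - cnd D X h) - Real.cos (Y h)) := by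
    have : avg (Om D) (fun h => Real.cos (X h - cnd D X h) - Real.cos (Y h)) =
        avg (Om D) (fun h => Real.cos (X h - cnd D X h)) + (-1) * avg (Om D) (fun h => Real.cos (Y h)) := by
      rw [← avg_smul, ← avg_add]
      exact avg_congr fun h _ => by ring
    rw [this]
    ring
  rw [e1]
  refine (avg_abs _ _).trans ?_
  have e2 : ∀ h, |Real.cos (X h - cnd D X h) - Real.cos (Y h)| ≤
      |(X h - Y h) - cnd D (fun g => X g - Y g) h| + |cnd D Y h| := by
    intro h
    refine (Real.abs_cos_sub_cos_le _ _).trans ?_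
    rw [cnd_sub]
    have : X h - cnd D X h - Y h = (X h - Y h - (cnd D X h - cnd D Y h)) + (-(cnd D Y h)) := by ring
    rw [this]
    refine (abs_add_le _ _).trans ?_
    rw [abs_neg]
  refine (avg_mono fun h _ => e2 h).trans ?_
  rw [avg_add]
  refine add_le_add ?_ ?_
  · refine (avg_abs_le_sqrt _ _).trans ?_
    rw [h1]
  · refine (avg_abs_le_sqrt _ _).trans (le_of_eq ?_)
    rw [← h2]
    congr 1
    exact avg_congr fun h _ => by ring

end GH
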