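import Pool.Agent.Helper27.GF.Cal2
import Pool.Agent.Helper97.EN.Glue

/-!
# Project GH: reflection of test functions in the line `x₁ = 0`
-/

open MeasureTheory

namespace GH

open GF (Pl Cc Ne dx dy lap energy2)

/-- the reflection in the line `x₁ = 0` -/
def tr (z : Pl) : Pl := (-z.1, z.2)

lemma tr_tr (z : Pl) : tr (tr z) = z := by
  unfold tr
  simp

/-- the reflection as a continuous linear map -/
def trL : Pl →L[ℝ] Pl := (-(ContinuousLinearMap.fst ℝ ℝ ℝ)).prod (ContinuousLinearMap.snd ℝ ℝ ℝ)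

lemma trL_apply (z : Pl) : trL z = tr z := rfl

lemma tr_eq_refl : tr = GF.refl ((1, 0) : Pl) 0 := by
  funext z
  unfold tr GF.refl GF.ell
  apply Prod.ext <;> simp <;> ring

lemma dir10 : GF.Dir ((1, 0) : Pl) := Or.inl rfl

/-- the reflected function -/
def rt (f : Pl → ℝ) : Pl → ℝ := fun z => f (tr z)

lemma rt_eq_rf (f : Pl → ℝ) : rt f = GF.rf ((1, 0) : Pl) 0 f := by
  funext z
  unfold rt GF.rf
  rw [tr_eq_refl]

lemma rt_rt (f : Pl → ℝ) : rt (rt f) = f := by
  funext z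
  unfold rt
  rw [tr_tr]

lemma cc_rt {f : Pl → ℝ} (hf : Cc f) : Cc (rt f) := by
  rw [rt_eq_rf]
  exact hf.rf dir10 0

lemma int_rt (f : Pl → ℝ) : ∫ z, rt f z = ∫ z, f z := by
  rw [rt_eq_rf]
  exact GF.int_rf f dir10 0

lemma ne_rt {f : Pl → ℝ} (hf : Ne f) : Ne (rt f) := ⟨cc_rt hf.toCc, (int_rt f).trans hf.zero⟩

lemma ne_sub_rt {f : Pl → ℝ} (hf : Cc f) : Ne (fun z => f z - rt f z) := by
  refine ⟨hf.sub (cc_rt hf), ?_⟩
  rw [integral_sub hf.integrable (cc_rt hf).integrable, int_rt, sub_self]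

lemma tr_mp : MeasurePreserving tr (volume : Measure Pl) volume := by
  rw [tr_eq_refl]
  exact GF.refl_mp dir10 0

lemma tr_emb : MeasurableEmbedding tr := by
  rw [tr_eq_refl]
  exact (GF.reflHomeo dir10 0).measurableEmbedding

lemma int_tr (f : Pl → ℝ) : ∫ z, f (tr z) = ∫ z, f z := tr_mp.integral_comp tr_emb f

/-- the energy is invariant under the reflection -/
theorem energy2_rt (f g : Pl → ℝ) : energy2 (rt f) (rt g) = energy2 f g := by
  have h1 : ∀ x : Pl, (∫ y : Pl, rt f x * rt g y *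
      (-(1 / (2 * Real.pi)) * Real.log (Real.sqrt ((x.1 - y.1) ^ 2 + (x.2 - y.2) ^ 2)))) =
      (fun x' : Pl => ∫ y : Pl, f x' * g y *
        (-(1 / (2 * Real.pi)) * Real.log (Real.sqrt ((x'.1 - y.1) ^ 2 + (x'.2 - y.2) ^ 2)))) (tr x) := by
    intro x
    simp only
    rw [← int_tr (fun y => f (tr x) * g y * (-(1 / (2 * Real.pi)) *
      Real.log (Real.sqrt (((tr x).1 - y.1) ^ 2 + ((tr x).2 - y.2) ^ 2))))]
    refine integral_congr_ae (Filter.Eventually.of_forall fun y => ?_)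
    simp only [rt, tr]
    have h2 : (x.1 - y.1) ^ 2 = (-x.1 - -y.1) ^ 2 := by ring
    rw [h2]
  unfold energy2
  simp only [h1]
  exact int_tr (fun x' : Pl => ∫ y : Pl, f x' * g y *
    (-(1 / (2 * Real.pi)) * Real.log (Real.sqrt ((x'.1 - y.1) ^ 2 + (x'.2 - y.2) ^ 2))))

lemma dx_rt {f : Pl → ℝ} (hf : ContDiff ℝ (⊤ : ℕ∞) f) (z : Pl) : dx (rt f) z = -dx f (tr z) := by
  have h1 : HasFDerivAt (fun z => f (trL z)) ((fderiv ℝ f (trL z)).comp trL) z :=
    ((hf.differentiable (by simp)) (trL z)).hasFDerivAt.comp z trL.hasFDerivAt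
  have h2 : dx (rt f) z = fderiv ℝ f (trL z) (trL (1, 0)) := by
    show fderiv ℝ (fun z => f (trL z)) z (1, 0) = _
    rw [h1.fderiv]
    rfl
  have h3 : trL (1, 0) = -((1, 0) : Pl) := by
    rw [trL_apply]
    unfold tr
    simp
  rw [h2, h3, map_neg]
  rfl

lemma dy_rt {f : Pl → ℝ} (hf : ContDiff ℝ (⊤ : ℕ∞) f) (z : Pl) : dy (rt f) z = dy f (tr z) := by
  have h1 : HasFDerivAt (fun z => f (trL z)) ((fderiv ℝ f (trL z)).comp trL) z :=
    ((hf.differentiable (by simp)) (trL z)).hasFDerivAt.comp z trL.hasFDerivAt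
  have h2 : dy (rt f) z = fderiv ℝ f (trL z) (trL (0, 1)) := by
    show fderiv ℝ (fun z => f (trL z)) z (0, 1) = _
    rw [h1.fderiv]
    rfl
  have h3 : trL (0, 1) = ((0, 1) : Pl) := by
    rw [trL_apply]
    unfold tr
    simp
  rw [h2, h3]
  rfl

lemma dx_rt' {f : Pl → ℝ} (hf : ContDiff ℝ (⊤ : ℕ∞) f) : dx (rt f) = fun z => -1 * rt (dx f) z := by
  funext z
  rw [dx_rt hf]
  unfold rt
  ring

lemma dy_rt' {f : Pl → ℝ} (hf : ContDiff ℝ (⊤ : ℕ∞) f) : dy (rt f) = rt (dy f) := by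
  funext z
  rw [dy_rt hf]
  rfl

theorem lap_rt {f : Pl → ℝ} (hf : Cc f) : lap (rt f) = rt (lap f) := by
  funext z
  unfold lap
  have h1 : ContDiff ℝ (⊤ : ℕ∞) (rt (dx f)) := (cc_rt hf.dx).smooth
  rw [dx_rt' hf.smooth, dy_rt' hf.smooth, GF.dx_smul (-1) h1, dx_rt hf.dx.smooth, dy_rt hf.dy.smooth]
  unfold rt
  ring

/-- the energy of the Laplacian of a function supported in the right half plane is orthogonal to the mirror image -/
theorem energy2_lap_rt {u : Pl → ℝ} (hu : Cc u) (hs : tsupport u ⊆ {z | 0 < z.1}) :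
    energy2 (lap u) (lap (rt u)) = 0 := by
  rw [GF.energy2_lap_left hu (cc_rt hu).lap]
  have h1 : ∀ z, u z * lap (rt u) z = 0 := by
    intro z
    by_cases h : u z = 0
    · rw [h, zero_mul]
    · have h2 : 0 < z.1 := hs (subset_tsupport u h)
      rw [lap_rt hu]
      have h3 : lap u (tr z) = 0 := by
        by_contra h4
        have h5 : 0 < (tr z).1 := hs (GF.tsupport_lap u (subset_tsupport _ h4))
        have h6 : (tr z).1 = -z.1 := rfl
        rw [h6] at h5
        linarith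
      show u z * lap u (tr z) = 0
      rw [h3, mul_zero]
  simp only [h1, integral_zero, neg_zero]

end GH
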