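import Pool.Agent.Helper12.GH.Id
import Pool.Agent.Helper12.GH.Odd
import Pool.Agent.Helper75.GF.L9

/-!
# Project GH: lattice sums and the reflection `x₁ ↦ -x₁`
-/

open MeasureTheory Filter Topology

namespace GH

open RP4 (V Om avg wt)
open GF (Pl Cc Ne)
open GF.Lat (Ix ev itf YY)

/-- the pairing `δ² ∑ f(δ x) h(x)` -/
noncomputable def PX (f : Pl → ℝ) (p : ℝ × Finset V) (h : V → ℤ) : ℝ := ∑ x ∈ p.2, wt p.1 f x * (h x : ℝ)

lemma wt_th (δ : ℝ) (f : Pl → ℝ) (x : V) : wt δ f (th x) = wt δ (rt f) x := by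
  unfold wt th rt tr
  simp

lemma wt_sub (δ : ℝ) (f g : Pl → ℝ) (x : V) : wt δ (fun z => f z - g z) x = wt δ f x - wt δ g x := by
  unfold wt
  ring

/-- change of variables in a symmetric domain -/
lemma sum_th {D : Finset V} (hD : SymD D) (a : V → ℝ) : ∑ x ∈ D, a (th x) = ∑ x ∈ D, a x :=
  Finset.sum_nbij' th th (fun x hx => (hD x).1 hx) (fun x hx => (hD x).1 hx) (fun x _ => th_th x)
    (fun x _ => th_th x) (fun _ _ => rfl)

lemma PX_th {p : ℝ × Finset V} (hD : SymD p.2) (f : Pl → ℝ) (h : V → ℤ) :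
    PX f p (fun v => h (th v)) = PX (rt f) p h := by
  unfold PX
  rw [← sum_th hD (fun x => wt p.1 (rt f) x * (h x : ℝ))]
  refine Finset.sum_congr rfl fun x _ => ?_
  show wt p.1 f x * _ = wt p.1 (rt f) (th x) * _
  rw [wt_th, rt_rt]

lemma YY_th {p : ℝ × Finset V} (hD : SymD p.2) (f : Pl → ℝ) (h : V → ℤ) :
    YY f (p, fun v => h (th v)) = YY (rt f) (p, h) := by
  have h0 : th 0 = (0 : V) := by
    unfold th
    simp
  unfold GF.Lat.YY
  show ∑ x ∈ p.2, wt p.1 f x * (((h (th x) : ℤ) : ℝ) - ((h (th 0) : ℤ) : ℝ)) =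
    ∑ x ∈ p.2, wt p.1 (rt f) x * ((h x : ℝ) - h 0)
  rw [h0, ← sum_th hD (fun x => wt p.1 (rt f) x * ((h x : ℝ) - h 0))]
  refine Finset.sum_congr rfl fun x _ => ?_
  show wt p.1 f x * _ = wt p.1 (rt f) (th x) * _
  rw [wt_th, rt_rt]

lemma sum_wt_odd {p : ℝ × Finset V} (hD : SymD p.2) (f : Pl → ℝ) :
    ∑ x ∈ p.2, wt p.1 (fun z => f z - rt f z) x = 0 := by
  have h1 : ∑ x ∈ p.2, wt p.1 (rt f) x = ∑ x ∈ p.2, wt p.1 f x := by
    rw [← sum_th hD (fun x => wt p.1 f x)]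
    exact Finset.sum_congr rfl fun x _ => (wt_th _ _ _).symm
  rw [Finset.sum_congr rfl fun x _ => wt_sub p.1 f (rt f) x, Finset.sum_sub_distrib, h1, sub_self]

/-- the difference of the two sides is the neutral pairing of `f - rt f` -/
lemma PX_diff {p : ℝ × Finset V} (hD : SymD p.2) (f : Pl → ℝ) (h : V → ℤ) :
    PX f p h - PX f p (fun v => h (th v)) = YY (fun z => f z - rt f z) (p, h) := by
  rw [PX_th hD]
  have h0 := sum_wt_odd hD f
  unfold PX GF.Lat.YY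
  show _ = ∑ x ∈ p.2, wt p.1 (fun z => f z - rt f z) x * ((h x : ℝ) - h 0)
  have h1 : ∑ x ∈ p.2, wt p.1 (fun z => f z - rt f z) x * ((h x : ℝ) - h 0) =
      ∑ x ∈ p.2, wt p.1 (fun z => f z - rt f z) x * (h x : ℝ) -
        (∑ x ∈ p.2, wt p.1 (fun z => f z - rt f z) x) * h 0 := by
    rw [Finset.sum_mul, ← Finset.sum_sub_distrib]
    exact Finset.sum_congr rfl fun x _ => by ring
  rw [h1, h0, zero_mul, sub_zero, ← Finset.sum_sub_distrib]
  refine Finset.sum_congr rfl fun x _ => ?_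
  rw [wt_sub]
  ring

lemma YY_sub (f g : Pl → ℝ) (i : Ix) : YY (fun z => f z - g z) i = YY f i - YY g i := by
  unfold GF.Lat.YY
  rw [← Finset.sum_sub_distrib]
  refine Finset.sum_congr rfl fun x _ => ?_
  rw [wt_sub]
  ring

lemma rmeas_PX {f : Pl → ℝ} (hf : ∀ z : Pl, z.1 ≤ 0 → f z = 0) {p : ℝ × Finset V} (hδ : 0 < p.1) :
    RMeas (PX f p) := by
  intro g g' hg
  unfold PX
  refine Finset.sum_congr rfl fun x _ => ?_
  by_cases hx : 0 ≤ x.1
  · rw [hg x hx]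
  · have h1 : wt p.1 f x = 0 := by
      unfold wt
      rw [hf, mul_zero]
      have h2 : (x.1 : ℝ) ≤ 0 := by exact_mod_cast (not_le.1 hx).le
      exact mul_nonpos_of_nonneg_of_nonpos hδ.le h2
    rw [h1, zero_mul, zero_mul]

lemma rmeas_YY {f : Pl → ℝ} (hf : ∀ z : Pl, z.1 ≤ 0 → f z = 0) {p : ℝ × Finset V} (hδ : 0 < p.1) :
    RMeas (fun h => YY f (p, h)) := by
  intro g g' hg
  show ∑ x ∈ p.2, wt p.1 f x * ((g x : ℝ) - g 0) = ∑ x ∈ p.2, wt p.1 f x * ((g' x : ℝ) - g' 0)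
  have h0 : g 0 = g' 0 := hg 0 le_rfl
  refine Finset.sum_congr rfl fun x _ => ?_
  by_cases hx : 0 ≤ x.1
  · rw [hg x hx, h0]
  · have h1 : wt p.1 f x = 0 := by
      unfold wt
      rw [hf, mul_zero]
      have h2 : (x.1 : ℝ) ≤ 0 := by exact_mod_cast (not_le.1 hx).le
      exact mul_nonpos_of_nonneg_of_nonpos hδ.le h2
    rw [h1, zero_mul, zero_mul]

end GH
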