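import Pool.Agent.Helper12.GH.Lat
import Pool.Agent.Helper12.GH.Dens

/-!
# Project GH: the limit theorem
-/

open MeasureTheory Filter Topology

namespace GH

open RP4 (V Om avg dom wt)
open GF (Pl Cc Ne energy2 lap)
open GF.Lat (Ix ev itf YY)

/-- first symmetric domains to the whole lattice, then scale to zero -/
noncomputable def itfs : Filter (ℝ × Finset V) := (𝓝[>] (0 : ℝ)).curry (dom ⊓ 𝓟 {D | SymD D})

lemma itfs_eventually {S : ℝ × Finset V → Prop} :
    (∀ᶠ p in itfs, S p) ↔ ∀ᶠ δ in 𝓝[>] (0 : ℝ), ∀ᶠ D in dom ⊓ 𝓟 {D | SymD D}, S (δ, D) := by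
  unfold itfs
  exact eventually_curry_iff

lemma itfs_le : itfs ≤ itf := by
  intro S hS
  have h1 : ∀ᶠ p in itf, p ∈ S := hS
  rw [GF.Lat.itf_eventually] at h1
  show ∀ᶠ p in itfs, p ∈ S
  rw [itfs_eventually]
  exact h1.mono fun δ h => h.filter_mono inf_le_left

lemma itfs_good : ∀ᶠ p in itfs, 0 < p.1 ∧ SymD p.2 := by
  rw [itfs_eventually]
  filter_upwards [self_mem_nhdsWithin] with δ hδ
  rw [eventually_inf_principal]
  exact Eventually.of_forall fun D h => ⟨hδ, h⟩

/-- the facts about the neutral pairings in the plane -/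
structure Src (K : ℝ) : Prop where
  nonneg : 0 ≤ K
  cos : ∀ f, Ne f → Tendsto (fun p => ev p (fun i => Real.cos (YY f i))) itf
    (𝓝 (Real.exp (-(K * energy2 f f / 2))))
  two : ∀ f g, Ne f → Ne g →
    Tendsto (fun p => ev p (fun i => YY f i * YY g i)) itf (𝓝 (K * energy2 f g))

/-- the estimate in a finite domain -/
lemma diff_est {p : ℝ × Finset V} (hδ : 0 < p.1) (hD : SymD p.2) {f v : Pl → ℝ}
    (hf : ∀ z : Pl, z.1 ≤ 0 → f z = 0) (hv : ∀ z : Pl, z.1 ≤ 0 → v z = 0) :
    |avg (Om p.2) (fun h => Real.cos (PX f p h - cnd p.2 (PX f p) h)) -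
        ev p (fun i => Real.cos (YY v i))| ≤
      √(1 / 2 * ev p (fun i => YY (fun z => (f z - rt f z) - (v z - rt v z)) i *
          YY (fun z => (f z - rt f z) - (v z - rt v z)) i)) +
        √(ev p (fun i => YY v i * YY (rt v) i)) := by
  have h1 := key_diff hD (rmeas_PX hf hδ) (rmeas_YY hv hδ)
  have e1 : (fun h : V → ℤ => ((PX f p h - YY v (p, h)) -
      (PX f p (fun w => h (th w)) - YY v (p, fun w => h (th w)))) ^ 2) =
      fun h => YY (fun z => (f z - rt f z) - (v z - rt v z)) (p, h) *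
        YY (fun z => (f z - rt f z) - (v z - rt v z)) (p, h) := by
    funext h
    have e2 : (PX f p h - YY v (p, h)) - (PX f p (fun w => h (th w)) - YY v (p, fun w => h (th w))) =
        YY (fun z => (f z - rt f z) - (v z - rt v z)) (p, h) := by
      rw [YY_sub (fun z => f z - rt f z) (fun z => v z - rt v z), YY_sub v (rt v), ← PX_diff hD,
        ← YY_th hD v]
      ring
    rw [e2, pow_two]
  have e3 : (fun h : V → ℤ => YY v (p, h) * YY v (p, fun w => h (th w))) =
      fun h => YY v (p, h) * YY (rt v) (p, h) := by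
    funext h
    rw [YY_th hD v]
  rw [e1, e3] at h1
  exact h1

lemma ne_lap_sub {f u : Pl → ℝ} (hf : Cc f) (hu : Cc u) :
    Ne (fun z => (f z - rt f z) - (lap u z - rt (lap u) z)) :=
  (ne_sub_rt hf).sub (ne_sub_rt hu.lap)

/-- the energy of the odd extension is twice the energy -/
lemma energy2_odd {u : Pl → ℝ} (hu : Cc u) (hs : tsupport u ⊆ {z | 0 < z.1}) :
    energy2 (fun z => lap u z - rt (lap u) z) (fun z => lap u z - rt (lap u) z) =
      2 * energy2 (lap u) (lap u) := by
  have hv : Cc (lap u) := hu.lap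
  have hr : Cc (rt (lap u)) := cc_rt hv
  have hn : Cc (fun z => (-1) * rt (lap u) z) := hr.smul (-1)
  have h0 : energy2 (lap u) (rt (lap u)) = 0 := by
    rw [← lap_rt hu]
    exact energy2_lap_rt hu hs
  have e1 : (fun z => lap u z - rt (lap u) z) = fun z => lap u z + (-1) * rt (lap u) z := by
    funext z
    ring
  rw [e1, GF.energy2_add_left hv hn (hv.add hn), GF.energy2_add_right hv hn hv,
    GF.energy2_add_right hv hn hn, GF.energy2_smul_left, GF.energy2_smul_left, GF.energy2_smul_right,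
    GF.energy2_smul_right, energy2_rt, GF.energy2_symm hr hv, h0]
  ring

theorem cos_limit {K : ℝ} (S : Src K) {f : Pl → ℝ} (hf : Cc f) (hs : tsupport f ⊆ {z | 0 < z.1}) :
    Tendsto (fun p : ℝ × Finset V => avg (Om p.2) (fun h => Real.cos (PX f p h - cnd p.2 (PX f p) h)))
      itfs (𝓝 (Real.exp (-(K * energy2 (fun z => f z - rt f z) (fun z => f z - rt f z) / 4)))) := by
  set F : Pl → ℝ := fun z => f z - rt f z with hF
  have hFn : Ne F := ne_sub_rt hf
  have hE := GF.energy2_nonneg hFn
  have hK := S.nonneg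
  rw [Metric.tendsto_nhds]
  intro η hη
  -- continuity of the target
  have hc : Continuous (fun s : ℝ => Real.exp (-(K * s ^ 2 / 4))) := by fun_prop
  obtain ⟨r, hr, hr'⟩ := Metric.continuous_iff.1 hc (√(energy2 F F)) (η / 3) (by positivity)
  set ε : ℝ := min ((r / 2) ^ 2) ((η / 3) ^ 2 / (K + 1)) with hε
  have hε0 : 0 < ε := lt_min (by positivity) (by positivity)
  obtain ⟨u, hu, hus, hue⟩ := dens_odd hf hε0
  set v : Pl → ℝ := lap u with hv
  have hlap : ∀ z, lap (fun w => u w - rt u w) z = v z - rt v z := by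
    intro z
    rw [GF.lap_sub hu.smooth (cc_rt hu).smooth, lap_rt hu]
  simp only [hlap] at hue
  set A : Pl → ℝ := fun z => (f z - rt f z) - (v z - rt v z) with hA
  have hAn : Ne A := ne_lap_sub hf hu
  have hwn : Ne (fun z => v z - rt v z) := ne_sub_rt hu.lap
  have hw := energy2_odd hu hus
  -- the energies are close
  have hclose : dist (√(2 * energy2 v v)) (√(energy2 F F)) < r := by
    rw [Real.dist_eq]
    have h1 := GF.sqrt_energy2_add hwn hAn
    have e1 : (fun z => (v z - rt v z) + A z) = F := by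
      funext z
      simp only [hA, hF]
      ring
    rw [e1] at h1
    have h2 := GF.sqrt_energy2_add hFn (hAn.smul (-1))
    have e2 : (fun z => F z + (-1) * A z) = fun z => v z - rt v z := by
      funext z
      simp only [hA, hF]
      ring
    rw [e2, GF.energy2_smul_left, GF.energy2_smul_right] at h2
    have e3 : (-1 : ℝ) * (-1 * energy2 A A) = energy2 A A := by ring
    rw [e3] at h2
    rw [← hw]
    have h3 : √(energy2 A A) ≤ r / 2 := by
      rw [Real.sqrt_le_left (by positivity)]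
      exact hue.le.trans (min_le_left _ _)
    rw [abs_lt]
    constructor <;> linarith
  have hq := hr' _ hclose
  have hvv : 0 ≤ 2 * energy2 v v := by
    rw [← hw]
    exact GF.energy2_nonneg hwn
  simp only [Real.sq_sqrt hvv, Real.sq_sqrt hE] at hq
  -- limits
  have hvn : Ne v := hu.ne_lap
  have l1 := (S.cos v hvn).mono_left itfs_le
  have l2 : Tendsto (fun p : ℝ × Finset V => √(1 / 2 * ev p (fun i => YY A i * YY A i)) +
      √(ev p (fun i => YY v i * YY (rt v) i))) itfs (𝓝 (√(1 / 2 * (K * energy2 A A)) +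
      √(K * energy2 v (rt v)))) :=
    ((((S.two A A hAn hAn).mono_left itfs_le).const_mul (1 / 2)).sqrt).add
      (((S.two v (rt v) hvn (ne_rt hvn)).mono_left itfs_le).sqrt)
  have h0 : energy2 v (rt v) = 0 := by
    rw [hv, ← lap_rt hu]
    exact energy2_lap_rt hu hus
  have hlt : √(1 / 2 * (K * energy2 A A)) + √(K * energy2 v (rt v)) < η / 3 := by
    rw [h0, mul_zero, Real.sqrt_zero, add_zero]
    rw [Real.sqrt_lt' (by positivity)]
    have h1 : energy2 A A < (η / 3) ^ 2 / (K + 1) := lt_of_lt_of_le hue (min_le_right _ _)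
    rw [lt_div_iff₀ (by positivity)] at h1
    have h2 := GF.energy2_nonneg hAn
    nlinarith [mul_nonneg hK h2]
  have g1 := (Metric.tendsto_nhds.1 l1) (η / 3) (by positivity)
  have g2 := l2.eventually (gt_mem_nhds hlt)
  filter_upwards [g1, g2, itfs_good] with p p1 p2 p3
  obtain ⟨hδ, hD⟩ := p3
  have hf0 : ∀ z : Pl, z.1 ≤ 0 → f z = 0 := by
    intro z hz
    by_contra h
    exact absurd (hs (subset_tsupport f h)) (not_lt.2 hz)
  have hv0 : ∀ z : Pl, z.1 ≤ 0 → v z = 0 := by
    intro z hz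
    by_contra h
    exact absurd (hus (GF.tsupport_lap u (subset_tsupport _ h))) (not_lt.2 hz)
  have h3 := diff_est hδ hD hf0 hv0
  have h4 : |avg (Om p.2) (fun h => Real.cos (PX f p h - cnd p.2 (PX f p) h)) -
      ev p (fun i => Real.cos (YY v i))| < η / 3 := lt_of_le_of_lt h3 p2
  rw [Real.dist_eq] at p1 hq ⊢
  have e5 : K * (2 * energy2 v v) / 4 = K * energy2 v v / 2 := by ring
  rw [e5] at hq
  rw [abs_lt] at h4 p1 hq ⊢
  constructor <;> linarith [h4.1, h4.2, p1.1, p1.2, hq.1, hq.2]

/-- the conditional characteristic function given the closed left half plane -/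
theorem half_limit {K : ℝ} (S : Src K) {f : Pl → ℝ} (hf : Cc f) (hs : tsupport f ⊆ {z | 0 < z.1}) :
    Tendsto (fun p : ℝ × Finset V => avg (Om p.2) (fun h =>
      (cnd p.2 (fun g => Real.cos (PX f p g - cnd p.2 (PX f p) h)) h -
        Real.exp (-(K * energy2 (fun z => f z - rt f z) (fun z => f z - rt f z) / 4))) ^ 2 +
      (cnd p.2 (fun g => Real.sin (PX f p g - cnd p.2 (PX f p) h)) h) ^ 2)) itfs (𝓝 0) := by
  set F : Pl → ℝ := fun z => f z - rt f z with hF
  set q : ℝ := Real.exp (-(K * energy2 F F / 4)) with hq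
  have hFn : Ne F := ne_sub_rt hf
  have l1 := (S.cos F hFn).mono_left itfs_le
  have l2 := cos_limit S hf hs
  have l3 : Tendsto (fun p : ℝ × Finset V => ev p (fun i => Real.cos (YY F i)) -
      2 * q * avg (Om p.2) (fun h => Real.cos (PX f p h - cnd p.2 (PX f p) h)) + q ^ 2) itfs
      (𝓝 (Real.exp (-(K * energy2 F F / 2)) - 2 * q * q + q ^ 2)) :=
    (l1.sub (l2.const_mul (2 * q))).add tendsto_const_nhds
  have e1 : Real.exp (-(K * energy2 F F / 2)) - 2 * q * q + q ^ 2 = 0 := by
    have : Real.exp (-(K * energy2 F F / 2)) = q * q := by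
      rw [hq, ← Real.exp_add]
      congr 1
      ring
    rw [this]
    ring
  rw [e1] at l3
  refine l3.congr' ?_
  filter_upwards [itfs_good, itfs_le GF.Lat.itf_nonempty] with p p1 p2
  obtain ⟨hδ, hD⟩ := p1
  have hf0 : ∀ z : Pl, z.1 ≤ 0 → f z = 0 := by
    intro z hz
    by_contra h
    exact absurd (hs (subset_tsupport f h)) (not_lt.2 hz)
  rw [key_id hD p2 (rmeas_PX hf0 hδ) q]
  have e2 : ev p (fun i => Real.cos (YY F i)) =
      avg (Om p.2) (fun h => Real.cos (PX f p h - PX f p (fun v => h (th v)))) := by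
    unfold GF.Lat.ev
    congr 1
    funext h
    rw [PX_diff hD]
  rw [e2]

end GH
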