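import Pool.Agent.Helper12.GH.Lim
import Pool.Agent.Helper34.GF.F2
import Pool.Agent.Helper27.GF.Rad
import Pool.Agent.Helper75.GF.LatFld

/-!
# Project GH: the facts about the neutral pairings in the plane, delocalised case
-/

open MeasureTheory Filter Topology

namespace GH

open RP4 (V Om avg dom wt Deloc)
open GF (Pl Cc Ne energy2 lap latFld latFld_L latFld_K latFld_X latFld_YY latFld_ok_YY latFld_ok_of_bdd Kc logBd)
open GF.Lat

theorem src_deloc (hd : Deloc) : Src (Kc hd) where
  nonneg := GF.Kc_nonneg hd
  cos f hf := by
    have h1 : Tendsto (fun p => ev p (fun i => Real.cos (XX f i))) itf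
        (𝓝 (Real.exp (-(Kc hd * energy2 f f / 2)))) := by
      rw [tendsto_iff_ultrafilter]
      intro U hU
      obtain ⟨χ, hχ⟩ := GF.rad_fun (latFld hd U hU)
      have h2 := GF.all_gauss (latFld hd U hU) χ hχ f hf
      rw [latFld_K] at h2
      rw [← h2]
      exact latFld_L hd U hU (latFld_ok_of_bdd hd U hU (B := 1) fun i => Real.abs_cos_le_one _)
    have h2 := (YY_second hd (logBd hd) hf).sqrt
    rw [Real.sqrt_zero] at h2
    have h3 : Tendsto (fun p => ev p (fun i => Real.cos (YY f i)) - ev p (fun i => Real.cos (XX f i))) itf
        (𝓝 0) := by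
      refine squeeze_zero_norm (fun p => ?_) h2
      rw [Real.norm_eq_abs]
      have e1 : ev p (fun i => Real.cos (YY f i)) - ev p (fun i => Real.cos (XX f i)) =
          avg (Om p.2) (fun h => Real.cos (YY f (p, h)) - Real.cos (XX f (p, h))) := by
        have : avg (Om p.2) (fun h => Real.cos (YY f (p, h)) - Real.cos (XX f (p, h))) =
            avg (Om p.2) (fun h => Real.cos (YY f (p, h))) +
              (-1) * avg (Om p.2) (fun h => Real.cos (XX f (p, h))) := by
          rw [← avg_smul, ← avg_add]
          exact avg_congr fun h _ => by ring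
        rw [this]
        unfold ev
        ring
      rw [e1]
      refine (avg_abs _ _).trans ?_
      refine (avg_mono fun h _ => Real.abs_cos_sub_cos_le _ _).trans ?_
      exact avg_abs_le_sqrt _ _
    have h4 := h3.add h1
    rw [zero_add] at h4
    exact h4.congr fun p => by ring
  two f g hf hg := by
    rw [tendsto_iff_ultrafilter]
    intro U hU
    set M := latFld hd U hU with hM
    have hYf := latFld_ok_YY hd U hU hf
    have hYg := latFld_ok_YY hd U hU hg
    have hXf : OkU U (XX f) := M.ok_X f hf
    have hXg : OkU U (XX g) := M.ok_X g hg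
    have h1 := M.two f g hf hg
    rw [latFld_K] at h1
    have e1 : LU U (fun i => YY f i * YY g i) = LU U (fun i => XX f i * YY g i) :=
      LU_close hYf hXf hYg (latFld_YY hd U hU hf)
    have e2 : LU U (fun i => YY g i * XX f i) = LU U (fun i => XX g i * XX f i) :=
      LU_close hYg hXg hXf (latFld_YY hd U hU hg)
    have e3 : (fun i => YY g i * XX f i) = fun i => XX f i * YY g i := by
      funext i
      ring
    have e4 : (fun i => XX g i * XX f i) = fun i => XX f i * XX g i := by
      funext i
      ring
    rw [e3, e4] at e2
    have h5 : LU U (fun i => YY f i * YY g i) = Kc hd * energy2 f g := by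
      rw [e1, e2]
      exact h1
    rw [← h5]
    exact LU_tendsto (hYf.mul hYg)

end GH
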